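import Mathlib
import Pool.Agent.Lib.helper31.RecDefs
import Pool.Agent.Lib.helper31.UrecJoint

namespace Pool.Agent.Results.MP_cd1425_an.UniformSum

open Filter Topology Set TopologicalSpace Pool.Agent.Lib.helper31.RecDefs
open Pool.Agent.Lib.helper31.UrecJoint

theorem result {𝕜 X : Type*} [RCLike 𝕜] [AddCommGroup X] [Module 𝕜 X] [TopologicalSpace X]
    [IsTopologicalAddGroup X] [ContinuousSMul 𝕜 X] [IsCompletelyMetrizableSpace X]
    (T : X →L[𝕜] X) (h : IsRecurrentOp Syndetic T) (n : ℕ) :
    IsRecurrentOp Syndetic fun (x : Fin n → X) (i : Fin n) => T (x i) := by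
  let _ := upgradeIsCompletelyMetrizable X
  refine dense_closure.1 ((dense_pi univ fun (_ : Fin n) _ => h).mono fun x hx => ?_)
  obtain ⟨p, h1, h2⟩ := core T T.continuous (range x) (countable_range x)
    (by rintro _ ⟨i, rfl⟩; exact hx i (mem_univ i))
  refine mem_closure_iff_nhds.2 fun U hU => ?_
  rw [nhds_pi, mem_pi'] at hU
  obtain ⟨I, V, hV, hVU⟩ := hU
  choose e y hy he using fun i => h2 _ ⟨i, rfl⟩ _ (hV i)
  refine ⟨y, hVU fun i _ => hy i, h1 _ _ (by fun_prop) e y (tendsto_pi_nhds.2 fun i => ?_)⟩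
  have : ∀ m : ℕ, (fun (x : Fin n → X) (i : Fin n) => T (x i))^[m] e i = T^[m] (e i) := fun m => by
    induction m with
    | zero => rfl
    | succ m ih => rw [Function.iterate_succ_apply', Function.iterate_succ_apply', ih]
  simpa only [this] using he i

end Pool.Agent.Results.MP_cd1425_an.UniformSum
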